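import Pool.Agent.Lib.MP_bc213e_ag.OW.E.DivA

/-! The sheaf of a Weil divisor is coherent. -/

namespace Pool.Agent.Lib.MP_bc213e_ag.OW.Ce

open Pool.Agent.Lib.MP_bc213e_ag.Hyp Submodule WithZero

variable {K : Type} [Field K] [Algebra ℂ K] {m : ℕ} {x : Fin m → Kˣ}

theorem div_pr {w : ZVal K} {i : Fin m} (h : PrimeDiv (chart x i) w) (σ : Finset (Fin m)) :
    w (pr x σ i) = 1 ↔ ∀ j ∈ σ, PrimeDiv (chart x j) w := by
  rw [pr, map_prod, Finset.prod_eq_one_iff_of_le_one' fun j _ => h.2.1 _ (Basic_mem x i j)]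
  exact forall₂_congr fun j _ => (primeDiv_chart h j).symm

/-- Sketch: `glue` is `sectM_pow` with `primeDiv_chart`; the last clause is `mem_Γ_iff`,
`sectM_pow` for `u = pr x σ i` (`w (pr x σ i) = 1` iff all factors have value one iff `w` is a
prime divisor of all charts in `σ`). -/
theorem exists_coh (normal : ∀ i, IsFractionRing (chart x i) K ∧ IsIntegrallyClosed (chart x i))
    (L : Prm x →₀ ℤ) : ∃ M : Coh x, (∀ a, M.Γ a ∅ = Tw L a) ∧
      ∀ σ, σ.Nonempty → M.Γ 0 σ = Sect L σ := by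
  let M : Coh x := ⟨sectM L, sectM_fg normal L, fun i l r hr =>
    sectM_pow normal L l (Basic_mem x l i) fun w hw h1 =>
      mem_sectM.1 hr w ((primeDiv_chart hw i).2 h1)⟩
  refine ⟨M, fun a => ?_, fun σ ⟨i, hi⟩ => ?_⟩
  · ext r
    exact M.mem_Γ_empty
  · ext r
    rw [M.mem_Γ_iff hi, pow_zero, div_one, mem_sect]
    refine ⟨fun ⟨e, he⟩ w hw => ?_, fun h => sectM_pow normal L i (pr_mem σ i) fun w hw h1 =>
      h w ((div_pr hw σ).1 h1)⟩
    have h1 := mem_sectM.1 he w (hw i hi)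
    rwa [map_mul, map_pow, (div_pr (hw i hi) σ).2 hw, one_pow, mul_one] at h1

end Pool.Agent.Lib.MP_bc213e_ag.OW.Ce
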