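import Pool.Agent.Lib.MP_bc213e_ag.OW.E.Pol
import Pool.Agent.Lib.MP_bc213e_ag.OW.E.Div

/-! The Euler characteristic is the constant term of the Hilbert polynomial. -/

namespace Pool.Agent.Lib.MP_bc213e_ag.OW

open Pool.Agent.Lib.MP_bc213e_ag.Hyp WithZero Filter Ce

theorem Ce.chi_eq {K : Type} [Field K] [Algebra ℂ K] {m : ℕ}
    {Γ Γ' : Finset (Fin m) → Submodule ℂ K} (h : ∀ σ, σ.Nonempty → Γ' σ = Γ σ) :
    chi Γ = eul (dC K m) m (cc Γ') fun _ => ⊥ := by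
  have e : ∀ p, coch Γ (p + 1) = cc Γ' (p + 1) := fun p => by
    unfold coch cc
    congr 1
    funext σ
    by_cases hs : σ.card = p + 1
    · have : σ.Nonempty := Finset.card_pos.1 (by omega)
      rw [if_pos hs, if_pos ⟨hs, this⟩, h σ this]
    · rw [if_neg hs, if_neg fun h => hs h.1]
  refine Finset.sum_congr rfl fun p _ => ?_
  congr 2
  unfold hC qdim hP rk
  rw [e, sup_bot_eq, Submodule.comap_bot]
  cases p with
  | zero => rw [if_pos rfl, cc_zero, Submodule.map_bot]; rfl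
  | succ p => rw [if_neg p.succ_ne_zero, e]; rfl

theorem cech_hilb {K : Type} [Field K] [Algebra ℂ K] {N : ℕ} (x : Fin (N + 1) → Kˣ)
    (normal : ∀ i, IsFractionRing (chart x i) K ∧ IsIntegrallyClosed (chart x i))
    (L : Prm x →₀ ℤ) : ∃ p : Polynomial ℚ, p.eval 0 = (chi (Sect L) : ℚ) ∧
      ∀ᶠ a : ℕ in atTop, (Module.finrank ℂ (Tw L a) : ℚ) = p.eval (a : ℚ) := by
  obtain ⟨M, h1, h2⟩ := exists_coh normal L
  obtain ⟨-, p, hp⟩ := Coh.pol 0 M (Coh.bot x) fun _ => bot_le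
  obtain ⟨a₀, h3⟩ := M.large 0
  simp only [C_bot 0] at hp
  refine ⟨p, ?_, (eventually_ge_atTop a₀).mono fun a ha => ?_⟩
  · rw [chi_eq h2]
    exact_mod_cast (hp 0).symm
  · rw [← hp, ← h1, eul, Finset.sum_range_succ', Finset.sum_eq_zero fun p _ => by
      rw [(h3 a ha).2 p]; simp, M.hP_zero 0]
    simp [Module.finrank]

end Pool.Agent.Lib.MP_bc213e_ag.OW
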