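import Pool.Agent.Lib.MP_bc213e_ag.OW.E.LinB
import Pool.Agent.Lib.MP_bc213e_ag.OW.IDefs
import Pool.Agent.Lib.MP_bc213e_ag.Hyp.Basic
import Pool.Agent.Lib.MP_4287a9_ag.EpsA

/-! Coherent subsheaves of the constant sheaf `K` and their Cech complexes. -/

namespace Pool.Agent.Lib.MP_bc213e_ag.OW.Ce

open Pool.Agent.Lib.MP_bc213e_ag.Hyp Submodule

variable {K : Type} [Field K] [Algebra ℂ K] {m : ℕ}

/-- A coherent subsheaf of the constant sheaf `K`. -/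
structure Coh (x : Fin m → Kˣ) where
  M : ∀ i, Submodule (chart x i) K
  fg : ∀ i, (M i).FG
  glue : ∀ i l, ∀ r ∈ M i, ∃ e : ℕ, r * ((x i : K) / x l) ^ e ∈ M l

variable {x : Fin m → Kˣ}

theorem mul_mem' {A : Subalgebra ℂ K} {P : Submodule A K} {r s : K} (hr : r ∈ P) (hs : s ∈ A) :
    r * s ∈ P := by
  rw [mul_comm]
  exact P.smul_mem ⟨s, hs⟩ hr

/-- The equation of the complement of the intersection of the charts in `σ`, on the chart `i`. -/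
def pr (x : Fin m → Kˣ) (σ : Finset (Fin m)) (i : Fin m) : K := ∏ j ∈ σ, (x j : K) / x i

theorem pr_mem (σ : Finset (Fin m)) (i : Fin m) : pr x σ i ∈ chart x i :=
  prod_mem fun j _ => Basic_mem x i j

/-- The zero sheaf. -/
def Coh.bot (x : Fin m → Kˣ) : Coh x :=
  ⟨fun _ => ⊥, fun _ => fg_bot, fun _ _ r hr => ⟨0, by rw [(mem_bot _).1 hr, zero_mul]; rfl⟩⟩

namespace Coh

variable (M : Coh x)

theorem mono {i : Fin m} {r u : K} (hu : u ∈ chart x i) {e : ℕ} (k : ℕ) (h : r * u ^ e ∈ M.M i) :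
    r * u ^ (e + k) ∈ M.M i := by
  rw [pow_add, ← mul_assoc]
  exact mul_mem' h (pow_mem hu k)

/-- Sections of `M (a)` over the intersection of the charts in `σ`. -/
def Γ (a : ℕ) (σ : Finset (Fin m)) : Submodule ℂ K where
  carrier := {r | ∃ e : ℕ, ∀ i, r / (x i : K) ^ a * pr x σ i ^ e ∈ M.M i}
  add_mem' := fun ⟨e, h⟩ ⟨e', h'⟩ => ⟨e + e', fun i => by
    rw [add_div, add_mul]
    exact add_mem (M.mono (pr_mem σ i) e' (h i)) (add_comm e e' ▸ M.mono (pr_mem σ i) e (h' i))⟩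
  zero_mem' := ⟨0, fun i => by rw [zero_div, zero_mul]; exact zero_mem _⟩
  smul_mem' := fun c r ⟨e, h⟩ => ⟨e, fun i => by
    rw [Algebra.smul_def, mul_div_assoc, mul_assoc, mul_comm]
    exact mul_mem' (h i) ((chart x i).algebraMap_mem c)⟩

theorem mem_Γ {a : ℕ} {σ : Finset (Fin m)} {r : K} :
    r ∈ M.Γ a σ ↔ ∃ e : ℕ, ∀ i, r / (x i : K) ^ a * pr x σ i ^ e ∈ M.M i := Iff.rfl

theorem mem_Γ_empty {a : ℕ} {r : K} : r ∈ M.Γ a ∅ ↔ ∀ i, r / (x i : K) ^ a ∈ M.M i := by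
  simp [mem_Γ, pr]

/-- One chart is enough. -/
theorem mem_Γ_iff {a : ℕ} {σ : Finset (Fin m)} {i : Fin m} (hi : i ∈ σ) {r : K} :
    r ∈ M.Γ a σ ↔ ∃ e : ℕ, r / (x i : K) ^ a * pr x σ i ^ e ∈ M.M i := by
  refine ⟨fun ⟨e, h⟩ => ⟨e, h i⟩, fun ⟨e, h⟩ => ?_⟩
  choose f hf using fun l => M.glue i l _ h
  refine ⟨e + (Finset.univ.sup f + a), fun l => ?_⟩
  obtain ⟨c, hc⟩ := Nat.exists_eq_add_of_le (Finset.le_sup (f := f) (Finset.mem_univ l))
  have hi0 : (x i : K) ≠ 0 := (x i).ne_zero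
  have hl0 : (x l : K) ≠ 0 := (x l).ne_zero
  have e1 : pr x σ l = pr x σ i * ((x i : K) / x l) ^ σ.card := by
    rw [pr, pr, ← Finset.prod_const, ← Finset.prod_mul_distrib]
    exact Finset.prod_congr rfl fun j _ => by field_simp
  have e2 : pr x σ l = (x i : K) / x l * pr x (σ.erase i) l := (Finset.mul_prod_erase σ _ hi).symm
  have e3 : r / (x l : K) ^ a * pr x σ l ^ (e + (Finset.univ.sup f + a)) =
      r / (x i : K) ^ a * pr x σ i ^ e * ((x i : K) / x l) ^ f l *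
        (((x i : K) / x l) ^ (σ.card * e + c + a + a) *
          pr x (σ.erase i) l ^ (Finset.univ.sup f + a)) := by
    rw [pow_add (pr x σ l)]
    nth_rewrite 1 [e1]
    rw [e2, hc, mul_pow, mul_pow, ← pow_mul]
    simp only [pow_add, div_pow]
    field_simp
  rw [e3]
  exact mul_mem' (hf l) (mul_mem (pow_mem (Basic_mem x l i) _) (pow_mem (pr_mem _ l) _))

theorem Γ_mono (a : ℕ) {τ σ : Finset (Fin m)} (h : τ ⊆ σ) : M.Γ a τ ≤ M.Γ a σ := by
  rintro r ⟨e, he⟩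
  refine ⟨e, fun i => ?_⟩
  rw [pr, ← Finset.prod_sdiff h, mul_pow, mul_comm (_ ^ e), ← mul_assoc]
  exact mul_mem' (he i) (pow_mem (pr_mem _ i) e)

theorem Γ_le {M' : Coh x} (h : ∀ i, M'.M i ≤ M.M i) (a : ℕ) (σ : Finset (Fin m)) :
    M'.Γ a σ ≤ M.Γ a σ := fun _ ⟨e, he⟩ => ⟨e, fun i => h i (he i)⟩

theorem Γ_bot (i : Fin m) (a : ℕ) (σ : Finset (Fin m)) : (Coh.bot x).Γ a σ = ⊥ := by
  refine (Submodule.eq_bot_iff _).2 fun r ⟨e, he⟩ => ?_
  have h : pr x σ i ≠ 0 := Finset.prod_ne_zero_iff.2 fun j _ =>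
    div_ne_zero (x j).ne_zero (x i).ne_zero
  simpa [h, (x i).ne_zero] using (mem_bot _).1 (he i)

end Coh

/-- Cochains, zero in the degree `-1`. -/
def cc (Γ : Finset (Fin m) → Submodule ℂ K) (s : ℕ) : Submodule ℂ (Finset (Fin m) → K) :=
  Submodule.pi Set.univ fun σ => if σ.card = s ∧ σ.Nonempty then Γ σ else ⊥

theorem mem_cc {Γ : Finset (Fin m) → Submodule ℂ K} {s : ℕ} {c : Finset (Fin m) → K} :
    c ∈ cc Γ s ↔ ∀ σ, (σ.card = s ∧ σ.Nonempty → c σ ∈ Γ σ) ∧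
      (¬ (σ.card = s ∧ σ.Nonempty) → c σ = 0) := by
  refine forall_congr' fun σ => ?_
  by_cases h : σ.card = s ∧ σ.Nonempty <;> simp [h]

theorem dC_eq (c : Finset (Fin m) → K) : dC K m c = MP_4287a9_ag.cdel c := by
  funext σ
  rw [MP_4287a9_ag.cdel_apply]
  simp only [dC, LinearMap.pi_apply, LinearMap.sum_apply, LinearMap.smul_apply,
    LinearMap.proj_apply]
  refine Finset.sum_congr rfl fun a _ => ?_
  rw [← Int.cast_smul_eq_zsmul ℂ]
  push_cast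
  rfl

theorem dC_apply (c : Finset (Fin m) → K) (σ : Finset (Fin m)) :
    dC K m c σ = ∑ a ∈ σ, (-1 : ℂ) ^ (σ.filter (· < a)).card • c (σ.erase a) := by
  simp only [dC, LinearMap.pi_apply, LinearMap.sum_apply, LinearMap.smul_apply,
    LinearMap.proj_apply]

theorem dC_dC (c : Finset (Fin m) → K) : dC K m (dC K m c) = 0 := by
  rw [dC_eq, dC_eq, MP_4287a9_ag.cdel_cdel]

theorem cc_zero (Γ : Finset (Fin m) → Submodule ℂ K) : cc Γ 0 = ⊥ :=
  (Submodule.eq_bot_iff _).2 fun c hc => funext fun σ =>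
    (mem_cc.1 hc σ).2 fun h => h.2.ne_empty (Finset.card_eq_zero.1 h.1)

theorem cc_top (Γ : Finset (Fin m) → Submodule ℂ K) : cc Γ (m + 1) = ⊥ :=
  (Submodule.eq_bot_iff _).2 fun c hc => funext fun σ =>
    (mem_cc.1 hc σ).2 fun h => by
      have := σ.card_le_univ
      rw [Fintype.card_fin] at this
      omega

theorem cc_le {Γ Γ' : Finset (Fin m) → Submodule ℂ K} (h : ∀ σ, σ.Nonempty → Γ' σ ≤ Γ σ) (s : ℕ) :
    cc Γ' s ≤ cc Γ s := fun _ hc => mem_cc.2 fun σ =>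
  ⟨fun hs => h σ hs.2 ((mem_cc.1 hc σ).1 hs), (mem_cc.1 hc σ).2⟩

theorem cc_cx {Γ : Finset (Fin m) → Submodule ℂ K} (h : ∀ τ σ, τ ⊆ σ → Γ τ ≤ Γ σ) :
    Cx (dC K m) (cc Γ) := by
  intro s c hc
  refine mem_cc.2 fun σ => ⟨fun _ => ?_, fun hs => ?_⟩ <;> rw [dC_apply]
  · refine sum_mem fun a _ => smul_mem _ _ ?_
    by_cases h1 : (σ.erase a).card = s ∧ (σ.erase a).Nonempty
    · exact h _ _ (σ.erase_subset a) ((mem_cc.1 hc _).1 h1)
    · rw [(mem_cc.1 hc _).2 h1]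
      exact zero_mem _
  · refine Finset.sum_eq_zero fun a ha => ?_
    rw [(mem_cc.1 hc _).2 fun h1 => hs ⟨?_, a, ha⟩, smul_zero]
    rw [← h1.1, Finset.card_erase_add_one ha]

/-- The Cech complex of `M (a)`. -/
def Coh.C (M : Coh x) (a : ℕ) : ℕ → Submodule ℂ (Finset (Fin m) → K) := cc (M.Γ a)

theorem Coh.cx (M : Coh x) (a : ℕ) : Cx (dC K m) (M.C a) := cc_cx fun _ _ => M.Γ_mono a

theorem cc_bot (s : ℕ) : cc (fun _ : Finset (Fin m) => (⊥ : Submodule ℂ K)) s = ⊥ :=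
  (Submodule.eq_bot_iff _).2 fun c hc => funext fun σ => by
    by_cases h : σ.card = s ∧ σ.Nonempty
    · exact (mem_cc.1 hc σ).1 h
    · exact (mem_cc.1 hc σ).2 h

theorem C_bot (i : Fin m) (a : ℕ) : (Coh.bot x).C a = fun _ => ⊥ := by
  funext s
  rw [Coh.C, funext (Coh.Γ_bot (x := x) i a), cc_bot]

end Pool.Agent.Lib.MP_bc213e_ag.OW.Ce
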