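import Pool.Agent.Lib.MP_bc213e_ag.OW.E.Coh
import Pool.Agent.Lib.MP_bc213e_ag.OW.A.Loc

/-! The sheaf of a Weil divisor is coherent. -/

namespace Pool.Agent.Lib.MP_bc213e_ag.OW.Ce

open Pool.Agent.Lib.MP_bc213e_ag.Hyp Submodule WithZero

variable {K : Type} [Field K] [Algebra ℂ K] {m : ℕ} {x : Fin m → Kˣ}

/-- Sections over the chart `i` as a module over the chart ring. -/
def sectM (L : Prm x →₀ ℤ) (i : Fin m) : Submodule (chart x i) K where
  carrier := Sect L {i}
  add_mem' := fun ha hb => add_mem ha hb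
  zero_mem' := zero_mem _
  smul_mem' := fun c s hs w hw => by
    show w.1 ((c : K) * s) ≤ _
    rw [map_mul]
    exact (mul_le_mul' ((hw i (Finset.mem_singleton_self i)).2.1 _ c.2) (hs w hw)).trans_eq
      (one_mul _)

theorem mem_sectM {L : Prm x →₀ ℤ} {i : Fin m} {s : K} : s ∈ sectM L i ↔
    ∀ w : Prm x, PrimeDiv (chart x i) w.1 → w.1 s ≤ exp (L w) := by
  simp [sectM, ← SetLike.mem_coe, Sect]

theorem diva_den (L : Prm x →₀ ℤ) (A : Subalgebra ℂ K) :
    ∃ c ∈ A, c ≠ 0 ∧ ∀ w : Prm x, PrimeDiv A w.1 → w.1 c ≤ exp (-L w) := by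
  classical
  have h1 : ∀ w : Prm x, ∃ b ∈ A, b ≠ 0 ∧ (PrimeDiv A w.1 → w.1 b ≤ exp (-L w)) := by
    intro w
    by_cases hw : PrimeDiv A w.1
    · obtain ⟨π, hπ⟩ := hw.1
      obtain ⟨b, -, h2, h3⟩ := hw.2.2 π (by
        rw [hπ, ← exp_zero, exp_le_exp]
        omega)
      have h4 : w.1 (b * π) = exp (-1) := by rw [map_mul, h2, hπ, one_mul]
      refine ⟨(b * π) ^ (L w).toNat, A.pow_mem h3 _, pow_ne_zero _ (w.1.ne_zero_iff.1 ?_),
        fun _ => ?_⟩
      · rw [h4]
        exact exp_ne_zero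
      · rw [map_pow, h4, ← exp_nsmul, exp_le_exp, nsmul_eq_mul]
        omega
    · exact ⟨1, A.one_mem, one_ne_zero, fun h => absurd h hw⟩
  choose b hb h2 h3 using h1
  refine ⟨∏ w ∈ L.support, b w, A.prod_mem fun w _ => hb w,
    Finset.prod_ne_zero_iff.2 fun w _ => h2 w, fun w hw => ?_⟩
  by_cases h4 : w ∈ L.support
  · rw [← Finset.mul_prod_erase _ _ h4, map_mul]
    exact (mul_le_mul' (h3 w hw) (hw.2.1 _ (A.prod_mem fun w _ => hb w))).trans_eq (mul_one _)
  · rw [Finsupp.notMem_support_iff.1 h4, neg_zero, exp_zero]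
    exact hw.2.1 _ (A.prod_mem fun w _ => hb w)

/-- Sketch: for each `w` in the support of `L` that is a prime divisor of the chart pick
`0 ≠ b ∈ chart x i` with `w b < 1` (from `π`, clause 3 of `PrimeDiv`); a product `c` of powers has
`c * s ∈ chart x i` for all `s ∈ sectM L i` (`hartogs`), so `sectM L i ≤ span {c⁻¹}`; `chart_noeth`. -/
theorem sectM_fg (normal : ∀ i, IsFractionRing (chart x i) K ∧ IsIntegrallyClosed (chart x i))
    (L : Prm x →₀ ℤ) (i : Fin m) : (sectM L i).FG := by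
  have := chart_noeth x i
  have := (normal i).1
  have := (normal i).2
  obtain ⟨c, hc, h0, h1⟩ := diva_den L (chart x i)
  refine Submodule.FG.of_le (fg_span_singleton c⁻¹) fun s hs => ?_
  have h2 : c * s ∈ chart x i := hartogs fun w hw => by
    rw [map_mul]
    refine (mul_le_mul' (h1 ⟨w, i, hw⟩ hw) (mem_sectM.1 hs ⟨w, i, hw⟩ hw)).trans_eq ?_
    rw [← exp_add, neg_add_cancel, exp_zero]
  refine mem_span_singleton.2 ⟨⟨c * s, h2⟩, ?_⟩
  show c * s * c⁻¹ = s
  rw [mul_right_comm, mul_inv_cancel₀ h0, one_mul]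

/-- A power of `u` kills the excess poles of `r`. Sketch: only finitely many `w` have
`w r > exp (L w)` (`finite_supp`, support of `L`), and `w u ≤ exp (-1)` for them. -/
theorem sectM_pow (normal : ∀ i, IsFractionRing (chart x i) K ∧ IsIntegrallyClosed (chart x i))
    (L : Prm x →₀ ℤ) (i : Fin m) {r u : K} (hu : u ∈ chart x i)
    (h : ∀ w : Prm x, PrimeDiv (chart x i) w.1 → w.1 u = 1 → w.1 r ≤ exp (L w)) :
    ∃ e : ℕ, r * u ^ e ∈ sectM L i := by
  classical
  have := chart_noeth x i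
  have := (normal i).1
  by_cases h0 : r = 0
  · exact ⟨0, by rw [h0, zero_mul]; exact zero_mem _⟩
  have h1 : ∀ w : Prm x, ∃ e : ℕ, PrimeDiv (chart x i) w.1 → w.1 r * w.1 u ^ e ≤ exp (L w) := by
    intro w
    have hr : w.1 r ≠ 0 := w.1.ne_zero_iff.2 h0
    by_cases h2 : w.1 u < 1
    · obtain ⟨e, he⟩ := exists_pow_lt₀ h2 (Units.mk0 ((w.1 r)⁻¹ * exp (L w))
        (mul_ne_zero (inv_ne_zero hr) exp_ne_zero))
      refine ⟨e, fun _ => ?_⟩
      rw [Units.val_mk0] at he
      exact (mul_le_mul_right he.le _).trans_eq (mul_inv_cancel_left₀ hr _)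
    · exact ⟨0, fun hw => by
        rw [pow_zero, mul_one]
        exact h w hw ((hw.2.1 u hu).eq_of_not_lt h2)⟩
  choose f hf using h1
  have h3 := (finite_supp (A := chart x i) h0).preimage
    (f := (Subtype.val : Prm x → ZVal K)) Subtype.val_injective.injOn
  refine ⟨(h3.toFinset ∪ L.support).sup f, mem_sectM.2 fun w hw => ?_⟩
  rw [map_mul, map_pow]
  by_cases h2 : w ∈ h3.toFinset ∪ L.support
  · exact (mul_le_mul_right (pow_le_pow_right_of_le_one' (hw.2.1 u hu) (Finset.le_sup h2)) _).trans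
      (hf w hw)
  · rw [Finset.mem_union, not_or, Set.Finite.mem_toFinset] at h2
    have h4 : w.1 r = 1 := by
      by_contra h5
      exact h2.1 ⟨hw, h5⟩
    rw [h4, one_mul, Finsupp.notMem_support_iff.1 h2.2, exp_zero]
    exact pow_le_one' (hw.2.1 u hu) _

end Pool.Agent.Lib.MP_bc213e_ag.OW.Ce
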