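import Mathlib

/-! Ranks of subquotients and the long exact cohomology sequence in numerical form. -/

namespace Pool.Agent.Lib.MP_bc213e_ag.OW.Ce

open Submodule

variable {V : Type} [AddCommGroup V] [Module ℂ V]

/-- The rank of `A / (A ⊓ B)`. -/
noncomputable def rk (A B : Submodule ℂ V) : Cardinal := Module.rank ℂ (A.map B.mkQ)

theorem rk_map {V' : Type} [AddCommGroup V'] [Module ℂ V'] (φ : V →ₗ[ℂ] V')
    {A B : Submodule ℂ V} {A' B' : Submodule ℂ V'} (h1 : ∀ a ∈ A, φ a ∈ A' ⊔ B')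
    (h2 : ∀ a' ∈ A', ∃ a ∈ A, a' - φ a ∈ B') (h3 : ∀ a ∈ A, φ a ∈ B' ↔ a ∈ B) :
    rk A B = rk A' B' := by
  have e1 : A'.map B'.mkQ = LinearMap.range (B'.mkQ ∘ₗ φ ∘ₗ A.subtype) := by
    refine le_antisymm ?_ ?_
    · rintro _ ⟨a', ha', rfl⟩
      obtain ⟨a, ha, h⟩ := h2 a' ha'
      exact ⟨⟨a, ha⟩, ((Submodule.Quotient.eq _).2 h).symm⟩
    · rintro _ ⟨a, rfl⟩
      obtain ⟨u, hu, v, hv, h⟩ := mem_sup.1 (h1 a a.2)
      refine ⟨u, hu, (Submodule.Quotient.eq _).2 ?_⟩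
      have : u - φ a = -v := by rw [← h]; abel
      exact this ▸ neg_mem hv
  have e2 : A.map B.mkQ = LinearMap.range (B.mkQ ∘ₗ A.subtype) := by
    rw [LinearMap.range_comp, range_subtype]
  have e3 : LinearMap.ker (B'.mkQ ∘ₗ φ ∘ₗ A.subtype) = LinearMap.ker (B.mkQ ∘ₗ A.subtype) := by
    ext a
    simp only [LinearMap.mem_ker, LinearMap.comp_apply, mkQ_apply, Submodule.Quotient.mk_eq_zero]
    exact h3 a a.2
  unfold rk
  rw [e1, e2, ← (LinearMap.quotKerEquivRange _).rank_eq, ← (LinearMap.quotKerEquivRange _).rank_eq,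
    e3]

theorem rk_tower {A W B : Submodule ℂ V} (h1 : B ≤ W) (h2 : W ≤ A) :
    rk A B = rk A W + rk W B := by
  have hle : B ≤ comap LinearMap.id W := h1
  let φ : A.map B.mkQ →ₗ[ℂ] V ⧸ W := mapQ B W LinearMap.id hle ∘ₗ (A.map B.mkQ).subtype
  have e1 : LinearMap.range φ = A.map W.mkQ := by
    rw [LinearMap.range_comp, range_subtype, ← map_comp, mapQ_mkQ]
    rfl
  have e2 : (LinearMap.ker φ).map (A.map B.mkQ).subtype = W.map B.mkQ := by
    refine le_antisymm ?_ ?_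
    · rintro _ ⟨⟨_, a, ha, rfl⟩, h, rfl⟩
      exact ⟨a, (Submodule.Quotient.mk_eq_zero W).1 h, rfl⟩
    · rintro _ ⟨w, hw, rfl⟩
      exact ⟨⟨_, w, h2 hw, rfl⟩, (Submodule.Quotient.mk_eq_zero W).2 hw, rfl⟩
  unfold rk
  rw [← φ.rank_range_add_rank_ker, e1, ← e2, rank_map_eq (injective_subtype _)]

theorem rk_eq_zero {A B : Submodule ℂ V} : rk A B = 0 ↔ A ≤ B := by
  unfold rk
  rw [rank_eq_zero, eq_bot_iff, map_le_iff_le_comap, comap_bot, ker_mkQ]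

theorem rk_bot (A : Submodule ℂ V) : rk A ⊥ = Module.rank ℂ A :=
  rank_map_eq (by rw [← LinearMap.ker_eq_bot, ker_mkQ]) A

variable (d : V →ₗ[ℂ] V)

/-- The rank of the `p`-th cohomology of the complex `C / C'`, whose `p`-th term is
`C (p + 1) / C' (p + 1)`. -/
noncomputable def hP (C C' : ℕ → Submodule ℂ V) (p : ℕ) : Cardinal :=
  rk (C (p + 1) ⊓ (C' (p + 2)).comap d) ((C p).map d ⊔ C' (p + 1))

/-- `C` is a complex. -/
def Cx (C : ℕ → Submodule ℂ V) : Prop := ∀ s, ∀ c ∈ C s, d c ∈ C (s + 1)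

variable {d}

theorem les (dd : ∀ v, d (d v) = 0) {C C' C'' : ℕ → Submodule ℂ V} (h : Cx d C) (h' : Cx d C')
    (h'' : Cx d C'') (l : ∀ s, C' s ≤ C s) (l' : ∀ s, C'' s ≤ C' s) (h0 : C 0 = ⊥) :
    ∃ α β δ : ℕ → Cardinal, δ 0 = 0 ∧ (∀ p, hP d C' C'' p = α p + δ p) ∧
      (∀ p, hP d C C'' p = β p + α p) ∧ ∀ p, hP d C C' p = δ (p + 1) + β p := by
  have z : ∀ {c : V} {s : ℕ} (D : ℕ → Submodule ℂ V), d (d c) ∈ D s := fun D => by
    rw [dd]; exact zero_mem _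
  refine ⟨fun p => rk (C' (p + 1) ⊓ (C'' (p + 2)).comap d) ((C p).map d ⊔ C'' (p + 1)),
    fun p => rk (C (p + 1) ⊓ (C'' (p + 2)).comap d) ((C p).map d ⊔ C' (p + 1)),
    fun p => rk (C' (p + 1) ⊓ (C'' (p + 2)).comap d ⊓ ((C p).map d ⊔ C'' (p + 1)))
      ((C' p).map d ⊔ C'' (p + 1)), ?_, fun p => ?_, fun p => ?_, fun p => ?_⟩
  · refine rk_eq_zero.2 (inf_le_right.trans (sup_le_sup_right ?_ _))
    rw [h0, Submodule.map_bot]
    exact bot_le
  · refine (rk_tower (W := C' (p + 1) ⊓ (C'' (p + 2)).comap d ⊓ ((C p).map d ⊔ C'' (p + 1)))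
      (le_inf (sup_le ?_ ?_) (sup_le_sup_right (map_mono (l p)) _)) inf_le_left).trans ?_
    · rintro _ ⟨c, hc, rfl⟩
      exact ⟨h' p c hc, z C''⟩
    · exact fun c hc => ⟨l' _ hc, h'' _ c hc⟩
    · congr 1
      exact rk_map LinearMap.id (fun a ha => mem_sup_left ha)
        (fun a ha => ⟨a, ha, by simp⟩) fun a ha => ⟨fun h => ⟨ha, h⟩, fun h => h.2⟩
  · refine (rk_tower (W := C (p + 1) ⊓ (C'' (p + 2)).comap d ⊓ ((C p).map d ⊔ C' (p + 1)))
      (le_inf (sup_le ?_ ?_) (sup_le_sup_left (l' _) _)) inf_le_left).trans ?_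
    · rintro _ ⟨c, hc, rfl⟩
      exact ⟨h p c hc, z C''⟩
    · exact fun c hc => ⟨l _ (l' _ hc), h'' _ c hc⟩
    · congr 1
      · exact rk_map LinearMap.id (fun a ha => mem_sup_left ha)
          (fun a ha => ⟨a, ha, by simp⟩) fun a ha => ⟨fun h => ⟨ha, h⟩, fun h => h.2⟩
      · symm
        refine rk_map LinearMap.id (fun a ha => mem_sup_left (mem_inf.2 ⟨mem_inf.2 ⟨l _ ha.1, ha.2⟩,
          mem_sup_right ha.1⟩)) (fun a ha => ?_) fun a _ => Iff.rfl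
        obtain ⟨_, ⟨c, hc, rfl⟩, c', hc', rfl⟩ := mem_sup.1 ha.2
        refine ⟨c', ⟨hc', ?_⟩, mem_sup_left ⟨c, hc, by simp⟩⟩
        have h1 : d (d c + c') ∈ C'' (p + 2) := ha.1.2
        rwa [map_add, dd, zero_add] at h1
  · refine (rk_tower (W := (C (p + 1) ⊓ (C'' (p + 2)).comap d) ⊔ ((C p).map d ⊔ C' (p + 1)))
      le_sup_right (sup_le (fun c hc => mem_inf.2 ⟨hc.1, mem_comap.2 (l' _ (mem_comap.1 hc.2))⟩) (sup_le ?_ ?_))).trans ?_
    · rintro _ ⟨c, hc, rfl⟩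
      exact ⟨h p c hc, z C'⟩
    · exact fun c hc => ⟨l _ hc, h' _ c hc⟩
    · congr 1
      · refine rk_map d (fun a ha => mem_sup_left ⟨⟨ha.2, z C''⟩, mem_sup_left ⟨a, ha.1, rfl⟩⟩)
          (fun a ha => ?_) fun a ha => ⟨fun h1 => ?_, fun h1 => ?_⟩
        · obtain ⟨_, ⟨c, hc, rfl⟩, c', hc', rfl⟩ := mem_sup.1 ha.2
          refine ⟨c, ⟨hc, ?_⟩, mem_sup_right (by simpa using hc')⟩
          have h1 := sub_mem ha.1.1 (l' _ hc')
          rwa [add_sub_cancel_right] at h1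
        · obtain ⟨_, ⟨c, hc, rfl⟩, c', hc', e⟩ := mem_sup.1 h1
          have e1 : a = a - c + c := by abel
          rw [e1]
          refine add_mem (mem_sup_left ⟨sub_mem ha.1 (l _ hc), ?_⟩)
            (mem_sup_right (mem_sup_right hc))
          show d (a - c) ∈ C'' (p + 2)
          rw [map_sub, ← e, add_sub_cancel_left]
          exact hc'
        · obtain ⟨u, hu, _, hv, rfl⟩ := mem_sup.1 h1
          obtain ⟨_, ⟨c, -, rfl⟩, c', hc', rfl⟩ := mem_sup.1 hv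
          rw [map_add, map_add, dd, zero_add]
          exact add_mem (mem_sup_right hu.2) (mem_sup_left ⟨c', hc', rfl⟩)
      · exact (rk_map LinearMap.id (fun a ha => mem_sup_left (mem_sup_left ha)) (fun a ha => by
          obtain ⟨u, hu, v, hv, rfl⟩ := mem_sup.1 ha
          exact ⟨u, hu, by simpa using hv⟩) fun a _ => Iff.rfl).symm

end Pool.Agent.Lib.MP_bc213e_ag.OW.Ce
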