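import Pool.Agent.Lib.MP_bc213e_ag.OW.E.Lin

/-! Finiteness, vanishing and Euler characteristics of pairs of complexes. -/

namespace Pool.Agent.Lib.MP_bc213e_ag.OW.Ce

open Submodule Cardinal

variable {V : Type} [AddCommGroup V] [Module ℂ V] (d : V →ₗ[ℂ] V)

/-- The cohomology of `C / C'` is finite dimensional. -/
def FD (C C' : ℕ → Submodule ℂ V) : Prop := ∀ p, hP d C C' p < ℵ₀

/-- The higher cohomology of `C / C'` vanishes. -/
def Van (C C' : ℕ → Submodule ℂ V) : Prop := ∀ p, hP d C C' (p + 1) = 0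

/-- The Euler characteristic of `C / C'`. -/
noncomputable def eul (m : ℕ) (C C' : ℕ → Submodule ℂ V) : ℤ :=
  ∑ p ∈ Finset.range m, (-1) ^ p * (toNat (hP d C C' p) : ℤ)

/-- Three nested complexes. -/
structure Tri (C C' C'' : ℕ → Submodule ℂ V) : Prop where
  dd : ∀ v, d (d v) = 0
  h : Cx d C
  h' : Cx d C'
  h'' : Cx d C''
  l : ∀ s, C' s ≤ C s
  l' : ∀ s, C'' s ≤ C' s
  h0 : C 0 = ⊥

variable {d} {C C' C'' D D' : ℕ → Submodule ℂ V}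

theorem Tri.les (T : Tri d C C' C'') :
    ∃ α β δ : ℕ → Cardinal, δ 0 = 0 ∧ (∀ p, hP d C' C'' p = α p + δ p) ∧
      (∀ p, hP d C C'' p = β p + α p) ∧ ∀ p, hP d C C' p = δ (p + 1) + β p :=
  Ce.les T.dd T.h T.h' T.h'' T.l T.l' T.h0

theorem Tri.fd_mid (T : Tri d C C' C'') (a : FD d C' C'') (c : FD d C C') : FD d C C'' := by
  obtain ⟨α, β, δ, -, h1, h2, h3⟩ := T.les
  intro p
  rw [h2]
  exact add_lt_aleph0 (add_lt_aleph0_iff.1 (h3 p ▸ c p)).2 (add_lt_aleph0_iff.1 (h1 p ▸ a p)).1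

theorem Tri.fd_quot (T : Tri d C C' C'') (a : FD d C' C'') (b : FD d C C'') : FD d C C' := by
  obtain ⟨α, β, δ, -, h1, h2, h3⟩ := T.les
  intro p
  rw [h3]
  exact add_lt_aleph0 (add_lt_aleph0_iff.1 (h1 _ ▸ a (p + 1))).2
    (add_lt_aleph0_iff.1 (h2 p ▸ b p)).1

theorem Tri.fd_sub (T : Tri d C C' C'') (b : FD d C C'') (c : FD d C C') : FD d C' C'' := by
  obtain ⟨α, β, δ, h0, h1, h2, h3⟩ := T.les
  intro p
  rw [h1]
  refine add_lt_aleph0 (add_lt_aleph0_iff.1 (h2 p ▸ b p)).2 ?_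
  cases p with
  | zero => exact h0 ▸ aleph0_pos
  | succ p => exact (add_lt_aleph0_iff.1 (h3 p ▸ c p)).1

theorem Tri.van_mid (T : Tri d C C' C'') (a : Van d C' C'') (c : Van d C C') : Van d C C'' := by
  obtain ⟨α, β, δ, -, h1, h2, h3⟩ := T.les
  intro p
  rw [h2, (add_eq_zero.1 ((h3 _).symm.trans (c p))).2, (add_eq_zero.1 ((h1 _).symm.trans (a p))).1,
    add_zero]

theorem Tri.van_quot (T : Tri d C C' C'') (a : Van d C' C'') (b : Van d C C'') : Van d C C' := by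
  obtain ⟨α, β, δ, -, h1, h2, h3⟩ := T.les
  intro p
  rw [h3, (add_eq_zero.1 ((h1 _).symm.trans (a (p + 1)))).2,
    (add_eq_zero.1 ((h2 _).symm.trans (b p))).1, add_zero]

theorem Tri.eul_add (T : Tri d C C' C'') {m : ℕ} (hm : C (m + 1) = ⊥) (a : FD d C' C'')
    (c : FD d C C') : eul d m C C'' = eul d m C' C'' + eul d m C C' := by
  obtain ⟨α, β, δ, h0, h1, h2, h3⟩ := T.les
  have fα := fun p => (add_lt_aleph0_iff.1 (h1 p ▸ a p)).1
  have fδ := fun p => (add_lt_aleph0_iff.1 (h1 p ▸ a p)).2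
  have fβ := fun p => (add_lt_aleph0_iff.1 (h3 p ▸ c p)).2
  have hδ : δ m = 0 := by
    refine (add_eq_zero.1 ((h1 m).symm.trans (rk_eq_zero.2 ?_))).2
    exact inf_le_left.trans ((T.l _).trans (hm.le.trans bot_le))
  have key : ∀ k, eul d k C C'' + (-1) ^ (k + 1) * (toNat (δ k) : ℤ) =
      eul d k C' C'' + eul d k C C' := by
    intro k
    induction k with
    | zero => simp [eul, h0]
    | succ k ih =>
      unfold eul at ih ⊢
      simp only [Finset.sum_range_succ]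
      rw [h1 k, h2 k, h3 k, toNat_add (fβ k) (fα k), toNat_add (fα k) (fδ k),
        toNat_add (fδ (k + 1)) (fβ k)]
      push_cast
      linear_combination ih
  simpa [hδ] using key m

theorem hP_iso (φ : V →ₗ[ℂ] V) (hφ : ∀ v, d (φ v) = φ (d v)) (h : Cx d C) (h' : Cx d D')
    (h1 : ∀ s, ∀ c ∈ C s, φ c ∈ D s) (h2 : ∀ s, ∀ c' ∈ D s, ∃ c ∈ C s, c' - φ c ∈ D' s)
    (h3 : ∀ s, ∀ c ∈ C s, φ c ∈ D' s ↔ c ∈ C' s) (l : ∀ s, C' s ≤ C s) :
    hP d C C' = hP d D D' := by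
  funext p
  refine rk_map φ (fun a ha => mem_sup_left (mem_inf.2 ⟨h1 _ a ha.1, mem_comap.2 ?_⟩))
    (fun a ha => ?_) fun a ha => ⟨fun h4 => ?_, fun h4 => ?_⟩
  · rw [hφ]
    exact (h3 _ _ (h _ a ha.1)).2 ha.2
  · obtain ⟨c, hc, e⟩ := h2 _ a ha.1
    refine ⟨c, mem_inf.2 ⟨hc, mem_comap.2 ((h3 _ _ (h _ c hc)).1 ?_)⟩, mem_sup_right e⟩
    have h5 := sub_mem (mem_comap.1 ha.2) (h' _ _ e)
    rwa [map_sub, sub_sub_cancel, hφ] at h5
  · obtain ⟨_, ⟨b, hb, rfl⟩, c', hc', e⟩ := mem_sup.1 h4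
    obtain ⟨c, hc, e'⟩ := h2 _ b hb
    have e1 : a = d c + (a - d c) := by abel
    rw [e1]
    refine add_mem (mem_sup_left ⟨c, hc, rfl⟩)
      (mem_sup_right ((h3 _ _ (sub_mem ha.1 (h _ c hc))).1 ?_))
    have h5 := add_mem (h' _ _ e') hc'
    rwa [map_sub, sub_add_eq_add_sub, e, hφ, ← map_sub] at h5
  · obtain ⟨_, ⟨b, hb, rfl⟩, c', hc', rfl⟩ := mem_sup.1 h4
    rw [map_add, ← hφ]
    exact add_mem (mem_sup_left ⟨_, h1 _ b hb, rfl⟩) (mem_sup_right ((h3 _ _ (l _ hc')).2 hc'))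

theorem hP_self (C : ℕ → Submodule ℂ V) (p : ℕ) : hP d C C p = 0 :=
  rk_eq_zero.2 (inf_le_left.trans le_sup_right)

/-- A map `φ : C / C' → D / D'` with kernel `E / C'` and cokernel `D / E'`. -/
structure Sq (d φ : V →ₗ[ℂ] V) (C C' D D' E E' : ℕ → Submodule ℂ V) : Prop where
  dd : ∀ v, d (d v) = 0
  hφ : ∀ v, d (φ v) = φ (d v)
  hC : Cx d C
  hC' : Cx d C'
  hD : Cx d D
  hD' : Cx d D'
  lC : ∀ s, C' s ≤ C s
  lD : ∀ s, D' s ≤ D s
  C0 : C 0 = ⊥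
  D0 : D 0 = ⊥
  m : ∀ s, ∀ c ∈ C s, φ c ∈ D s
  m' : ∀ s, ∀ c ∈ C' s, φ c ∈ D' s
  ker : ∀ s, E s = C s ⊓ (D' s).comap φ
  cok : ∀ s, E' s = D' s ⊔ (C s).map φ

variable {φ : V →ₗ[ℂ] V} {E E' : ℕ → Submodule ℂ V}

theorem Sq.t1 (S : Sq d φ C C' D D' E E') : Tri d C E C' := by
  refine ⟨S.dd, S.hC, fun s c hc => ?_, S.hC', fun s => S.ker s ▸ inf_le_left, fun s c hc => ?_,
    S.C0⟩
  · rw [S.ker] at hc ⊢
    exact mem_inf.2 ⟨S.hC _ c hc.1, mem_comap.2 (S.hφ c ▸ S.hD' _ _ hc.2)⟩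
  · rw [S.ker]
    exact mem_inf.2 ⟨S.lC _ hc, S.m' _ c hc⟩

theorem Sq.t2 (S : Sq d φ C C' D D' E E') : Tri d D E' D' := by
  refine ⟨S.dd, S.hD, fun s c hc => ?_, S.hD', fun s => ?_, fun s => S.cok s ▸ le_sup_left, S.D0⟩
  · rw [S.cok] at hc ⊢
    obtain ⟨u, hu, _, ⟨b, hb, rfl⟩, rfl⟩ := mem_sup.1 hc
    rw [map_add, S.hφ]
    exact add_mem (mem_sup_left (S.hD' _ u hu)) (mem_sup_right ⟨_, S.hC _ b hb, rfl⟩)
  · rw [S.cok]
    exact sup_le (S.lD s) (map_le_iff_le_comap.2 (S.m s))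

theorem Sq.iso (S : Sq d φ C C' D D' E E') : hP d C E = hP d E' D' := by
  refine hP_iso φ S.hφ S.hC S.hD' (fun s c hc => ?_) (fun s c hc => ?_) (fun s c hc => ?_) S.t1.l
  · rw [S.cok]
    exact mem_sup_right ⟨c, hc, rfl⟩
  · rw [S.cok] at hc
    obtain ⟨u, hu, _, ⟨b, hb, rfl⟩, rfl⟩ := mem_sup.1 hc
    exact ⟨b, hb, by simpa using hu⟩
  · rw [S.ker]
    exact ⟨fun h => ⟨hc, h⟩, fun h => h.2⟩

theorem Sq.fd_iff (S : Sq d φ C C' D D' E E') (a : FD d E C') (b : FD d D E') :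
    FD d C C' ↔ FD d D D' := by
  have e : FD d C E ↔ FD d E' D' := by unfold FD; rw [S.iso]
  exact ⟨fun h => S.t2.fd_mid (e.1 (S.t1.fd_quot a h)) b,
    fun h => S.t1.fd_mid a (e.2 (S.t2.fd_sub h b))⟩

theorem Sq.van (S : Sq d φ C C' D D' E E') (a : Van d E C') (b : Van d D E') (h : Van d C C') :
    Van d D D' := by
  have e : Van d C E ↔ Van d E' D' := by unfold Van; rw [S.iso]
  exact S.t2.van_mid (e.1 (S.t1.van_quot a h)) b

theorem Sq.eul_step (S : Sq d φ C C' D D' E E') {m : ℕ} (hm : C (m + 1) = ⊥)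
    (hm' : D (m + 1) = ⊥) (a : FD d E C') (b : FD d D E') (h : FD d C C') :
    eul d m D D' = eul d m C C' + (eul d m D E' - eul d m E C') := by
  have e : FD d C E ↔ FD d E' D' := by unfold FD; rw [S.iso]
  have e' : eul d m C E = eul d m E' D' := by unfold eul; rw [S.iso]
  have h1 := S.t1.fd_quot a h
  rw [S.t2.eul_add hm' (e.1 h1) b, S.t1.eul_add hm a h1, e']
  ring

end Pool.Agent.Lib.MP_bc213e_ag.OW.Ce
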