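import Pool.Agent.Lib.MP_bc213e_ag.OW.E.SerA

/-! Serre vanishing for coherent subsheaves of `K`. -/

namespace Pool.Agent.Lib.MP_bc213e_ag.OW.Ce

open Pool.Agent.Lib.MP_bc213e_ag.Hyp Submodule

variable {K : Type} [Field K] [Algebra ℂ K] {m : ℕ} {x : Fin m → Kˣ}

/-- Sketch: `MP_4287a9_ag.serre` with `T = ℂ`, `A = N = K`, `G = x` for the family of `exists_fam`
(copy the three side conditions from `KBB.sec_zero`). At `s = 0` apply `CExact` to the cochain that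
is `w` on all sets (`cdel_pair`, `cdel_single`): `M.Γ (e + j) ∅ ≤ B * V ^ j`. At `s + 1` only
nonempty sets occur. -/
theorem Coh.serre (M : Coh x) (i₀ : Fin m) : ∃ a₀, ∀ a, a₀ ≤ a → FiniteDimensional ℂ (M.Γ a ∅) ∧
    ∀ s, MP_4287a9_ag.CExact (fun σ => (M.Γ a σ : Set K)) (s + 1) := by
  obtain ⟨e, B, hB, hM⟩ := M.exists_fam
  have hp : ∀ j, B * KBB.Vs ℂ x ^ (j + 1) = KBB.Vs ℂ x * (B * KBB.Vs ℂ x ^ j) := fun j => by
    rw [pow_succ', mul_left_comm]
  have hfg : ∀ j, (B * KBB.Vs ℂ x ^ j).FG := fun j =>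
    hB.mul ((fg_span (Set.finite_range _)).pow j)
  obtain ⟨j₀, h⟩ := MP_4287a9_ag.serre (T := ℂ) (A := K) (N := K) x
    (fun j => B * KBB.Vs ℂ x ^ j) (fun a j v hv => by
      rw [hp]
      exact mul_mem_mul (KBB.uvf0_x x _) hv) hfg ⟨0, fun j _ v hv => by
      rw [hp] at hv
      refine Submodule.mul_induction_on hv (fun m hm n hn => ?_) ?_
      · obtain ⟨c, rfl⟩ := (mem_span_range_iff_exists_fun ℂ).1 hm
        refine ⟨fun a => c a • n, fun a => smul_mem _ _ hn, ?_⟩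
        rw [Finset.sum_mul]
        exact Finset.sum_congr rfl fun a _ => by rw [smul_eq_mul, smul_mul_assoc, mul_smul_comm]
      · rintro _ _ ⟨w, hw, rfl⟩ ⟨w', hw', rfl⟩
        refine ⟨w + w', fun a => add_mem (hw a) (hw' a), ?_⟩
        simp only [Pi.add_apply, smul_add, Finset.sum_add_distrib]⟩
  refine ⟨e + j₀, fun a ha => ?_⟩
  obtain ⟨j, rfl⟩ : ∃ j, a = e + j := ⟨a - e, by omega⟩
  have hj : j₀ ≤ j := by omega
  refine ⟨?_, fun s c h1 h2 => ?_⟩
  · have h0 : FiniteDimensional ℂ (B * KBB.Vs ℂ x ^ j : Submodule ℂ K) :=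
      Module.Finite.iff_fg.2 (hfg j)
    refine finiteDimensional_of_le (S₂ := B * KBB.Vs ℂ x ^ j) fun w hw => ?_
    obtain ⟨b, hb, hb'⟩ := h j hj 0 (fun _ => w) (fun σ hσ => by
      rw [hM j σ (Finset.card_pos.1 (by omega))]
      exact M.Γ_mono _ (Finset.empty_subset σ) hw) fun σ hσ => by
      obtain ⟨a, a', hne, rfl⟩ := Finset.card_eq_two.1 hσ
      rcases lt_or_gt_of_ne hne with h1 | h1
      · rw [MP_4287a9_ag.cdel_pair _ h1, sub_self]
      · rw [Finset.pair_comm, MP_4287a9_ag.cdel_pair _ h1, sub_self]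
    have h1 := hb' {i₀} (Finset.card_singleton _)
    rw [MP_4287a9_ag.cdel_single] at h1
    obtain ⟨k, hk⟩ := hb ∅ rfl
    simpa [h1] using hk
  · obtain ⟨b, hb, hb'⟩ := h j hj (s + 1) c (fun σ hσ => by
      rw [hM j σ (Finset.card_pos.1 (by omega))]
      exact h1 σ hσ) h2
    refine ⟨b, fun σ hσ => ?_, hb'⟩
    have h3 := hb σ hσ
    rwa [hM j σ (Finset.card_pos.1 (by omega))] at h3

end Pool.Agent.Lib.MP_bc213e_ag.OW.Ce
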