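import Pool.Agent.Lib.MP_bc213e_ag.OW.E.Step
import Pool.Agent.Lib.MP_bc213e_ag.OW.E.Ser

/-! Finiteness of cohomology and the Hilbert polynomial of a pair of coherent sheaves. -/

namespace Pool.Agent.Lib.MP_bc213e_ag.OW.Ce

open Pool.Agent.Lib.MP_bc213e_ag.Hyp Submodule Polynomial Cardinal

theorem pol_sum (q : ℚ[X]) :
    ∃ p : ℚ[X], ∀ a : ℕ, ∑ j ∈ Finset.range a, q.eval (j : ℚ) = p.eval (a : ℚ) := by
  induction q using Polynomial.induction_on' with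
  | add q q' h h' =>
    obtain ⟨p, hp⟩ := h
    obtain ⟨p', hp'⟩ := h'
    exact ⟨p + p', fun a => by simp only [eval_add, Finset.sum_add_distrib, hp, hp']⟩
  | monomial k c =>
    refine ⟨C (c / (k + 1)) * (Polynomial.bernoulli (k + 1) - C (_root_.bernoulli (k + 1))),
      fun a => ?_⟩
    have h := Polynomial.sum_range_pow_eq_bernoulli_sub a k
    have h0 : (k + 1 : ℚ) ≠ 0 := by positivity
    simp only [eval_monomial, eval_mul, eval_C, eval_sub]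
    rw [← h, ← Finset.mul_sum]
    field_simp

theorem pol_step {f : ℕ → ℚ} {q : ℚ[X]} (h : ∀ a, f (a + 1) = f a + q.eval (a : ℚ)) :
    ∃ p : ℚ[X], ∀ a : ℕ, f a = p.eval (a : ℚ) := by
  obtain ⟨p, hp⟩ := pol_sum q
  refine ⟨C (f 0) + p, fun a => ?_⟩
  rw [eval_add, eval_C, ← hp]
  induction a with
  | zero => simp
  | succ a ih => rw [h, ih, Finset.sum_range_succ, add_assoc]

variable {K : Type} [Field K] [Algebra ℂ K] {m : ℕ} {x : Fin m → Kˣ}

theorem Coh.hP_zero (M : Coh x) (i₀ : Fin m) (a : ℕ) :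
    hP (dC K m) (M.C a) (fun _ => ⊥) 0 = Module.rank ℂ (M.Γ a ∅) := by
  rw [← rk_bot]
  have h1 : ∀ {σ : Finset (Fin m)}, σ.card = 0 + 1 ∧ σ.Nonempty ↔ ∃ i, σ = {i} :=
    ⟨fun h => Finset.card_eq_one.1 h.1, fun ⟨i, h⟩ => by simp [h]⟩
  have h2 : ∀ c ∈ M.C a (0 + 1) ⊓ (⊥ : Submodule ℂ _).comap (dC K m), ∀ i, c {i} = c {i₀} := by
    intro c hc i
    have h3 : MP_4287a9_ag.cdel c = 0 := dC_eq c ▸ (mem_bot ℂ).1 hc.2
    have h4 := fun {i j : Fin m} (h : i < j) => MP_4287a9_ag.cdel_pair c h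
    rcases lt_trichotomy i i₀ with h | h | h
    · exact (sub_eq_zero.1 ((h4 h).symm.trans (congrFun h3 _))).symm
    · rw [h]
    · exact sub_eq_zero.1 ((h4 h).symm.trans (congrFun h3 _))
  refine rk_map (LinearMap.proj {i₀}) (fun c hc => mem_sup_left (M.mem_Γ_empty.2 fun i => ?_))
    (fun r hr => ?_) fun c hc => ⟨fun h => mem_sup_right (funext fun σ => ?_), fun h => ?_⟩
  · obtain ⟨e, he⟩ := (mem_cc.1 hc.1 {i}).1 (h1.2 ⟨i, rfl⟩)
    simpa [pr, h2 c hc i] using he i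
  · let c₀ : Finset (Fin m) → K := fun σ => if σ = ∅ then r else 0
    have h3 : ∀ i, dC K m c₀ {i} = r := fun i => by simp [dC_apply, c₀, Finset.filter_singleton]
    refine ⟨dC K m c₀, ⟨mem_cc.2 fun σ => ⟨fun hs => ?_, fun hs => ?_⟩, dC_dC _⟩, ?_⟩
    · obtain ⟨i, rfl⟩ := h1.1 hs
      exact (h3 i).symm ▸ M.Γ_mono a (Finset.empty_subset _) hr
    · rw [dC_apply]
      refine Finset.sum_eq_zero fun i hi => ?_
      rw [show c₀ (σ.erase i) = 0 from if_neg fun h => hs (h1.2 ⟨i, ?_⟩), smul_zero]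
      rw [← Finset.insert_erase hi, h]
      rfl
    · exact sub_eq_zero.2 (h3 i₀).symm
  · by_cases hs : σ.card = 0 + 1 ∧ σ.Nonempty
    · obtain ⟨i, rfl⟩ := h1.1 hs
      exact (h2 c hc i).trans h
    · exact (mem_cc.1 hc.1 σ).2 hs
  · rw [Coh.C, cc_zero, Submodule.map_bot, bot_sup_eq] at h
    rw [(mem_bot ℂ).1 h]
    rfl

theorem Coh.van (M : Coh x) {a : ℕ}
    (h : ∀ s, MP_4287a9_ag.CExact (fun σ => (M.Γ a σ : Set K)) (s + 1)) :
    Van (dC K m) (M.C a) fun _ => ⊥ := by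
  refine fun p => rk_eq_zero.2 fun c hc => mem_sup_left ?_
  have ne : ∀ {σ : Finset (Fin m)} {s : ℕ}, σ.card = s + 1 → σ.Nonempty := fun h =>
    Finset.card_pos.1 (by omega)
  obtain ⟨b, hb, e⟩ := h p c (fun σ hs => (mem_cc.1 hc.1 σ).1 ⟨hs, ne hs⟩)
    fun σ _ => congrFun (dC_eq c ▸ (mem_bot ℂ).1 hc.2) σ
  have h1 : (fun σ => if σ.card = p + 1 then b σ else 0) ∈ M.C a (p + 1) :=
    mem_cc.2 fun σ => ⟨fun hs => by rw [if_pos hs.1]; exact hb σ hs.1,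
      fun hs => if_neg fun h => hs ⟨h, ne h⟩⟩
  refine ⟨_, h1, funext fun σ => ?_⟩
  by_cases hs : σ.card = p + 1 + 1
  · rw [← e σ hs, ← dC_eq, dC_apply, dC_apply]
    refine Finset.sum_congr rfl fun i hi => ?_
    rw [if_pos (by rw [Finset.card_erase_of_mem hi, hs]; rfl)]
  · rw [(mem_cc.1 hc.1 σ).2 fun h => hs h.1, (mem_cc.1 (M.cx a _ _ h1) σ).2 fun h => hs h.1]

theorem Coh.large (M : Coh x) (i₀ : Fin m) : ∃ a₀, ∀ a, a₀ ≤ a →
    FD (dC K m) (M.C a) (fun _ => ⊥) ∧ Van (dC K m) (M.C a) fun _ => ⊥ := by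
  obtain ⟨a₀, h⟩ := M.serre i₀
  refine ⟨a₀, fun a ha => ⟨fun p => ?_, M.van (h a ha).2⟩⟩
  cases p with
  | zero =>
    have := (h a ha).1
    rw [M.hP_zero i₀]
    exact Module.rank_lt_aleph0 ℂ _
  | succ p => exact (M.van (h a ha).2 p).symm ▸ aleph0_pos

theorem Coh.pol (i₀ : Fin m) (M M' : Coh x) (h : ∀ i, M'.M i ≤ M.M i) :
    (∀ a, FD (dC K m) (M.C a) (M'.C a)) ∧
      ∃ p : ℚ[X], ∀ a : ℕ, (eul (dC K m) m (M.C a) (M'.C a) : ℚ) = p.eval (a : ℚ) := by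
  refine devissage (fun M M' => (∀ a, FD (dC K m) (M.C a) (M'.C a)) ∧
    ∃ p : ℚ[X], ∀ a : ℕ, (eul (dC K m) m (M.C a) (M'.C a) : ℚ) = p.eval (a : ℚ))
    (fun M M' h h' => ?_) (fun M M' l h ⟨f1, p1, e1⟩ ⟨f2, p2, e2⟩ => ?_) M M' h
  · have e : ∀ a, M'.C a = M.C a := fun a => funext fun s => le_antisymm
      (cc_le (fun σ _ => M.Γ_le h a σ) s) (cc_le (fun σ _ => M'.Γ_le h' a σ) s)
    refine ⟨fun a p => ?_, 0, fun a => ?_⟩
    · rw [e, hP_self]
      exact aleph0_pos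
    · simp [e, eul, hP_self]
  · have S := M.sq M' l h
    have fd : ∀ a, FD (dC K m) (M.C a) (M'.C a) := by
      obtain ⟨a₁, h1⟩ := M.large i₀
      obtain ⟨a₂, h2⟩ := M'.large i₀
      have h3 : ∀ k a, a₁ + a₂ ≤ a + k → FD (dC K m) (M.C a) (M'.C a) := by
        intro k
        induction k with
        | zero =>
          intro a ha
          have T : Tri (dC K m) (M.C a) (M'.C a) fun _ => ⊥ :=
            ⟨dC_dC, M.cx a, M'.cx a, fun _ c hc => by rw [(mem_bot ℂ).1 hc, map_zero]; rfl,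
              (S a).lC, fun _ => bot_le, cc_zero _⟩
          exact T.fd_quot (h2 a (by omega)).1 (h1 a (by omega)).1
        | succ k ih => exact fun a ha => ((S a).fd_iff (f1 a) (f2 _)).2 (ih _ (by omega))
      exact fun a => h3 (a₁ + a₂) a (by omega)
    refine ⟨fd, pol_step (q := p2.comp (X + 1) - p1) fun a => ?_⟩
    rw [(S a).eul_step (cc_top _) (cc_top _) (f1 a) (f2 _) (fd a)]
    push_cast
    rw [e1, e2]
    simp

end Pool.Agent.Lib.MP_bc213e_ag.OW.Ce
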