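import Pool.Agent.Lib.MP_bc213e_ag.OW.E.Coh
import Pool.Agent.Lib.MP_4287a9_ag.SerC
import Pool.Agent.Lib.MP_bc213e_ag.KBB.Uvf0

/-! Serre vanishing for coherent subsheaves of `K`. -/

namespace Pool.Agent.Lib.MP_bc213e_ag.OW.Ce

open Pool.Agent.Lib.MP_bc213e_ag.Hyp Submodule

variable {K : Type} [Field K] [Algebra ℂ K] {m : ℕ} {x : Fin m → Kˣ}

theorem serA_chart (l : Fin m) {a : K} (ha : a ∈ chart x l) :
    ∃ n : ℕ, (x l : K) ^ n * a ∈ KBB.Vs ℂ x ^ n := by
  refine KBB.uvf0_chart x l ?_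
  have : KBB.chartR ℂ x l = chart x l := by
    unfold KBB.chartR chart
    congr 2
    funext j
    rw [Units.val_mul, Units.val_inv_eq_inv_val, div_eq_mul_inv]
  rwa [this]

theorem serA_pow (l : Fin m) (j : ℕ) : ∀ v ∈ KBB.Vs ℂ x ^ j, v / (x l : K) ^ j ∈ chart x l := by
  induction j with
  | zero =>
    intro v hv
    rw [pow_zero, Submodule.mem_one] at hv
    obtain ⟨c, rfl⟩ := hv
    rw [pow_zero, div_one]
    exact (chart x l).algebraMap_mem c
  | succ j ih =>
    intro v hv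
    rw [pow_succ] at hv
    refine Submodule.mul_induction_on hv (fun a ha b hb => ?_) (fun a b ha hb => ?_)
    · rw [pow_succ, mul_div_mul_comm]
      refine mul_mem (ih a ha) ?_
      obtain ⟨c, rfl⟩ := (Submodule.mem_span_range_iff_exists_fun ℂ).1 hb
      rw [Finset.sum_div]
      refine sum_mem fun i _ => ?_
      rw [smul_div_assoc]
      exact (chart x l).smul_mem (Basic_mem x l i) _
    · rw [add_div]
      exact add_mem ha hb

theorem serA_prod (σ : Finset (Fin m)) : ∏ a ∈ σ, (x a : K) ∈ KBB.Vs ℂ x ^ σ.card := by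
  induction σ using Finset.induction_on with
  | empty => simp
  | insert a σ ha ih =>
    rw [Finset.prod_insert ha, Finset.card_insert_of_notMem ha, pow_succ']
    exact Submodule.mul_mem_mul (KBB.uvf0_x x a) ih

theorem serA_mul {B : Submodule ℂ K} {n n' : ℕ} {u v : K} (hu : u ∈ B * KBB.Vs ℂ x ^ n)
    (hv : v ∈ KBB.Vs ℂ x ^ n') : u * v ∈ B * KBB.Vs ℂ x ^ (n + n') := by
  rw [pow_add, ← mul_assoc]
  exact Submodule.mul_mem_mul hu hv

/-- Sketch: `M.M i` is spanned over `chart x i` by a finite set `T i` (`fg`); by `glue` (and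
`Coh.mono`) one `e` has `t * x i ^ e ∈ M.Γ e ∅` for all `i`, `t ∈ T i`. Let `B` be the `ℂ`-span of
these elements, `V = KBB.Vs ℂ x`, and `P j = B * V ^ j ≤ M.Γ (e + j) ∅`. For `σ` nonempty
`secM x P j σ = M.Γ (e + j) σ` (`mem_Γ_iff`, `KBB.uvf0_chart`). -/
theorem Coh.exists_fam (M : Coh x) : ∃ (e : ℕ) (B : Submodule ℂ K), B.FG ∧
    ∀ j σ, σ.Nonempty →
      MP_4287a9_ag.secM x (fun j => B * KBB.Vs ℂ x ^ j) j σ = (M.Γ (e + j) σ : Set K) := by
  classical
  choose T hT using M.fg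
  have h1 : ∀ i l (t : K), ∃ e : ℕ, t ∈ T i → t * ((x i : K) / x l) ^ e ∈ M.M l := by
    intro i l t
    by_cases ht : t ∈ T i
    · obtain ⟨e, he⟩ := M.glue i l t (hT i ▸ Submodule.subset_span ht)
      exact ⟨e, fun _ => he⟩
    · exact ⟨0, fun h => absurd h ht⟩
  choose f hf using h1
  let e : ℕ := Finset.univ.sup fun i => Finset.univ.sup fun l => (T i).sup (f i l)
  have he : ∀ i l, ∀ t ∈ T i, t * ((x i : K) / x l) ^ e ∈ M.M l := by
    intro i l t ht
    have h2 : f i l t ≤ e :=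
      ((Finset.le_sup (f := f i l) ht).trans
        (Finset.le_sup (f := fun l => (T i).sup (f i l)) (Finset.mem_univ l))).trans
        (Finset.le_sup (f := fun i => Finset.univ.sup fun l => (T i).sup (f i l))
          (Finset.mem_univ i))
    obtain ⟨c, hc⟩ := Nat.exists_eq_add_of_le h2
    rw [hc]
    exact M.mono (Basic_mem x l i) c (hf i l t ht)
  let S : Finset K := Finset.univ.biUnion fun i => (T i).image fun t => t * (x i : K) ^ e
  let B : Submodule ℂ K := span ℂ (S : Set K)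
  have hB : B ≤ M.Γ e ∅ := by
    refine span_le.2 fun b hb => ?_
    obtain ⟨i, -, hb⟩ := Finset.mem_biUnion.1 hb
    obtain ⟨t, ht, rfl⟩ := Finset.mem_image.1 hb
    refine M.mem_Γ_empty.2 fun l => ?_
    rw [mul_div_assoc, ← div_pow]
    exact he i l t ht
  have hP : ∀ l j, ∀ w ∈ B * KBB.Vs ℂ x ^ j, w / (x l : K) ^ (e + j) ∈ M.M l := by
    intro l j w hw
    refine Submodule.mul_induction_on hw (fun a ha b hb => ?_) (fun a b ha hb => ?_)
    · rw [pow_add, mul_div_mul_comm]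
      exact mul_mem' (M.mem_Γ_empty.1 (hB ha) l) (serA_pow l j b hb)
    · rw [add_div]
      exact add_mem ha hb
  have hx : ∀ l n, (x l : K) ^ n ∈ KBB.Vs ℂ x ^ n := fun l n =>
    Submodule.pow_mem_pow _ (KBB.uvf0_x x l) n
  have hQ : ∀ l, ∀ s ∈ M.M l, ∃ n : ℕ, s * (x l : K) ^ (e + n) ∈ B * KBB.Vs ℂ x ^ n := by
    intro l s hs
    rw [← hT l] at hs
    induction hs using Submodule.span_induction with
    | mem t ht =>
      refine ⟨0, ?_⟩
      rw [pow_zero, mul_one, add_zero]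
      exact subset_span (Finset.mem_biUnion.2 ⟨l, Finset.mem_univ l,
        Finset.mem_image.2 ⟨t, ht, rfl⟩⟩)
    | zero => exact ⟨0, by rw [zero_mul]; exact zero_mem _⟩
    | add a b _ _ ha hb =>
      obtain ⟨n, hn⟩ := ha
      obtain ⟨n', hn'⟩ := hb
      refine ⟨n + n', ?_⟩
      have e1 : (a + b) * (x l : K) ^ (e + (n + n')) =
          a * (x l : K) ^ (e + n) * (x l : K) ^ n' + b * (x l : K) ^ (e + n') * (x l : K) ^ n := by
        ring
      rw [e1]
      exact add_mem (serA_mul hn (hx l n')) (add_comm n n' ▸ serA_mul hn' (hx l n))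
    | smul a b _ hb =>
      obtain ⟨n, hn⟩ := hb
      obtain ⟨n', hn'⟩ := serA_chart l a.2
      refine ⟨n + n', ?_⟩
      have e1 : (a • b) * (x l : K) ^ (e + (n + n')) =
          b * (x l : K) ^ (e + n) * ((x l : K) ^ n' * a) := by
        change ((a : K) * b) * _ = _
        ring
      rw [e1]
      exact serA_mul hn hn'
  refine ⟨e, B, ⟨S, rfl⟩, fun j σ ⟨l, hl⟩ => Set.ext fun r => ?_⟩
  have hl0 : (x l : K) ≠ 0 := (x l).ne_zero
  have hpr : pr x σ l = (∏ a ∈ σ, (x a : K)) / (x l : K) ^ σ.card := by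
    rw [pr, Finset.prod_div_distrib, Finset.prod_const]
  rw [SetLike.mem_coe, M.mem_Γ_iff hl]
  constructor
  · rintro ⟨i, hi⟩
    refine ⟨i, ?_⟩
    have h3 := hP l _ _ hi
    refine (congrArg (· ∈ M.M l) ?_).mpr h3
    rw [hpr, smul_eq_mul, Units.val_pow_eq_pow_val, Units.coe_prod, div_pow, ← pow_mul]
    simp only [pow_add, mul_comm σ.card i]
    field_simp
  · rintro ⟨k, hk⟩
    obtain ⟨n, hn⟩ := hQ l _ hk
    refine ⟨k + n, ?_⟩
    have h4 : (∏ a ∈ σ.erase l, (x a : K)) ^ n ∈ KBB.Vs ℂ x ^ ((σ.erase l).card * n) := by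
      rw [pow_mul]
      exact Submodule.pow_mem_pow _ (serA_prod _) n
    have h5 := serA_mul (serA_mul hn (hx l (j + σ.card * k))) h4
    have h6 : n + (j + σ.card * k) + (σ.erase l).card * n = j + (k + n) * σ.card := by
      rw [← Finset.card_erase_add_one hl]
      ring
    rw [h6] at h5
    refine (congrArg (· ∈ B * KBB.Vs ℂ x ^ (j + (k + n) * σ.card)) ?_).mpr h5
    rw [hpr, smul_eq_mul, Units.val_pow_eq_pow_val, Units.coe_prod, div_pow, ← pow_mul,
      pow_add (∏ a ∈ σ, (x a : K))]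
    nth_rewrite 2 [← Finset.mul_prod_erase σ _ hl]
    simp only [pow_add, mul_pow]
    field_simp

end Pool.Agent.Lib.MP_bc213e_ag.OW.Ce
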