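import Pool.Agent.Lib.MP_bc213e_ag.OW.E.Coh

/-! Kernel and cokernel of the multiplication by a coordinate; devissage. -/

namespace Pool.Agent.Lib.MP_bc213e_ag.OW.Ce

open Pool.Agent.Lib.MP_bc213e_ag.Hyp Submodule

variable {K : Type} [Field K] [Algebra ℂ K] {m : ℕ} {x : Fin m → Kˣ}

theorem step_fg {i : Fin m} {P Q : Submodule (chart x i) K} (h : P ≤ Q) (hQ : Q.FG) : P.FG := by
  have := chart_noeth x i
  exact hQ.of_le h

omit [Algebra ℂ K] in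
theorem step_tr (l i j : Fin m) (r : K) (e : ℕ) :
    r * ((x i : K) / x j) ^ (e + 1) * (x l / x i) = r * ((x i : K) / x j) ^ e * (x l / x j) := by
  have := (x i).ne_zero
  rw [pow_succ]
  field_simp

namespace Coh

variable (M M' : Coh x) (l : Fin m)

/-- The kernel of `x l : M / M' → (M / M') (1)` is `ker / M'`. -/
def ker : Coh x where
  M i := M.M i ⊓ (M'.M i).comap (LinearMap.mulRight (chart x i) ((x l : K) / x i))
  fg i := step_fg inf_le_left (M.fg i)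
  glue i j r hr := by
    obtain ⟨e, he⟩ := M.glue i j r hr.1
    obtain ⟨e', he'⟩ := M'.glue i j _ hr.2
    refine ⟨e + (e' + 1), M.mono (Basic_mem x j i) _ he, ?_⟩
    have h := M'.mono (Basic_mem x j i) (e + 2) he'
    have e1 : e' + (e + 2) = e + (e' + 1) + 1 := by omega
    rwa [LinearMap.mulRight_apply, mul_right_comm, e1, step_tr] at h

/-- The cokernel of `x l : (M / M') (-1) → M / M'` is `M / cok`. -/
def cok (h : ∀ i, M'.M i ≤ M.M i) : Coh x where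
  M i := M'.M i ⊔ (M.M i).map (LinearMap.mulRight (chart x i) ((x l : K) / x i))
  fg i := step_fg (sup_le (h i) (by
    rintro _ ⟨r, hr, rfl⟩
    exact mul_mem' hr (Basic_mem x i l))) (M.fg i)
  glue i j r hr := by
    obtain ⟨u, hu, _, ⟨v, hv, rfl⟩, rfl⟩ := mem_sup.1 hr
    obtain ⟨e, he⟩ := M'.glue i j u hu
    obtain ⟨e', he'⟩ := M.glue i j v hv
    refine ⟨e + e' + 1, ?_⟩
    rw [add_mul, LinearMap.mulRight_apply, mul_right_comm, step_tr]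
    exact add_mem (mem_sup_left (add_assoc e e' 1 ▸ M'.mono (Basic_mem x j i) (e' + 1) he))
      (mem_sup_right ⟨_, add_comm e' e ▸ M.mono (Basic_mem x j i) e he', rfl⟩)

omit [Algebra ℂ K] in
theorem step_div (a : ℕ) (i : Fin m) (r u : K) :
    r * x l / (x i : K) ^ (a + 1) * u = r / (x i : K) ^ a * u * (x l / x i) := by
  rw [pow_succ]
  ring

theorem Γ_mul {a : ℕ} {σ : Finset (Fin m)} {r : K} (h : r ∈ M.Γ a σ) :
    r * x l ∈ M.Γ (a + 1) σ := by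
  obtain ⟨e, he⟩ := h
  exact ⟨e, fun i => step_div l a i r _ ▸ mul_mem' (he i) (Basic_mem x i l)⟩

theorem Γ_ker {a : ℕ} {σ : Finset (Fin m)} {r : K} :
    r ∈ (M.ker M' l).Γ a σ ↔ r ∈ M.Γ a σ ∧ r * x l ∈ M'.Γ (a + 1) σ := by
  refine ⟨fun ⟨e, he⟩ => ⟨⟨e, fun i => (he i).1⟩, e, fun i => step_div l a i r _ ▸ (he i).2⟩,
    fun ⟨⟨e, he⟩, e', he'⟩ => ⟨e + e', fun i => ⟨M.mono (pr_mem σ i) e' (he i), ?_⟩⟩⟩
  have h := M'.mono (pr_mem σ i) e (he' i)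
  rwa [step_div, add_comm e'] at h

theorem Γ_cok (h : ∀ i, M'.M i ≤ M.M i) {a : ℕ} {σ : Finset (Fin m)} (hσ : σ.Nonempty) {r : K} :
    r ∈ (M.cok M' l h).Γ (a + 1) σ ↔ ∃ v ∈ M.Γ a σ, r - v * x l ∈ M'.Γ (a + 1) σ := by
  obtain ⟨i, hi⟩ := hσ
  have h0 : pr x σ i ≠ 0 := Finset.prod_ne_zero_iff.2 fun j _ =>
    div_ne_zero (x j).ne_zero (x i).ne_zero
  have h1 := (x i).ne_zero
  constructor
  · rintro ⟨e, he⟩
    obtain ⟨u, hu, _, ⟨v, hv, rfl⟩, e1⟩ := mem_sup.1 (he i)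
    have e2 : v * (x i : K) ^ a / pr x σ i ^ e / (x i : K) ^ a * pr x σ i ^ e = v := by field_simp
    refine ⟨v * (x i : K) ^ a / pr x σ i ^ e, (M.mem_Γ_iff hi).2 ⟨e, e2.symm ▸ hv⟩,
      (M'.mem_Γ_iff hi).2 ⟨e, ?_⟩⟩
    rwa [sub_div, sub_mul, ← e1, step_div, e2, LinearMap.mulRight_apply, add_sub_cancel_right]
  · rintro ⟨v, ⟨e, he⟩, hv⟩
    rw [← sub_add_cancel r (v * x l)]
    exact add_mem (Γ_le _ (fun _ => le_sup_left) _ _ hv)
      ⟨e, fun j => step_div l a j v _ ▸ mem_sup_right ⟨_, he j, rfl⟩⟩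

end Coh

/-- Multiplication of cochains by `y`. -/
noncomputable def mulC (m : ℕ) (y : K) : (Finset (Fin m) → K) →ₗ[ℂ] (Finset (Fin m) → K) :=
  (LinearMap.mulRight ℂ y).compLeft _

theorem mulC_apply (y : K) (c : Finset (Fin m) → K) (σ : Finset (Fin m)) :
    mulC m y c σ = c σ * y := rfl

theorem Coh.sq (M M' : Coh x) (l : Fin m) (h : ∀ i, M'.M i ≤ M.M i) (a : ℕ) :
    Sq (dC K m) (mulC m (x l : K)) (M.C a) (M'.C a) (M.C (a + 1)) (M'.C (a + 1))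
      ((M.ker M' l).C a) ((M.cok M' l h).C (a + 1)) := by
  have hm : ∀ (P : Coh x) s, ∀ c ∈ P.C a s, mulC m (x l : K) c ∈ P.C (a + 1) s :=
    fun P s c hc => mem_cc.2 fun σ => ⟨fun hs => P.Γ_mul l ((mem_cc.1 hc σ).1 hs),
      fun hs => by rw [mulC_apply, (mem_cc.1 hc σ).2 hs, zero_mul]⟩
  refine ⟨dC_dC, fun v => funext fun σ => ?_, M.cx a, M'.cx a, M.cx _, M'.cx _,
    cc_le fun σ _ => M.Γ_le h a σ, cc_le fun σ _ => M.Γ_le h _ σ, cc_zero _, cc_zero _, hm M, hm M',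
    fun s => le_antisymm (fun c hc => ?_) fun c hc => ?_,
    fun s => le_antisymm (fun c hc => ?_) (sup_le ?_ ?_)⟩
  · simp only [mulC_apply, dC_apply, Finset.sum_mul, smul_mul_assoc]
  · exact mem_inf.2 ⟨cc_le (fun σ _ r hr => ((M.Γ_ker M' l).1 hr).1) s hc,
      mem_cc.2 fun σ => ⟨fun hs => ((M.Γ_ker M' l).1 ((mem_cc.1 hc σ).1 hs)).2,
        fun hs => by rw [mulC_apply, (mem_cc.1 hc σ).2 hs, zero_mul]⟩⟩
  · exact mem_cc.2 fun σ => ⟨fun hs => (M.Γ_ker M' l).2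
      ⟨(mem_cc.1 hc.1 σ).1 hs, (mem_cc.1 hc.2 σ).1 hs⟩, (mem_cc.1 hc.1 σ).2⟩
  · have key : ∀ σ : Finset (Fin m), ∃ v, (σ.card = s ∧ σ.Nonempty →
        v ∈ M.Γ a σ ∧ c σ - v * x l ∈ M'.Γ (a + 1) σ) ∧ (¬ (σ.card = s ∧ σ.Nonempty) → v = 0) := by
      intro σ
      by_cases hs : σ.card = s ∧ σ.Nonempty
      · obtain ⟨v, hv⟩ := (M.Γ_cok M' l h hs.2).1 ((mem_cc.1 hc σ).1 hs)
        exact ⟨v, fun _ => hv, fun h => absurd hs h⟩
      · exact ⟨0, fun h => absurd h hs, fun _ => rfl⟩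
    choose v hv using key
    rw [← sub_add_cancel c (mulC m (x l : K) v)]
    refine add_mem (mem_sup_left (mem_cc.2 fun σ => ⟨fun hs => ((hv σ).1 hs).2, fun hs => ?_⟩))
      (mem_sup_right ⟨v, mem_cc.2 fun σ => ⟨fun hs => ((hv σ).1 hs).1, (hv σ).2⟩, rfl⟩)
    rw [Pi.sub_apply, mulC_apply, (hv σ).2 hs, (mem_cc.1 hc σ).2 hs, zero_mul, sub_zero]
  · exact cc_le (fun σ _ => Coh.Γ_le _ (fun _ => le_sup_left) _ σ) s
  · rintro _ ⟨c, hc, rfl⟩
    exact mem_cc.2 fun σ => ⟨fun hs => (M.Γ_cok M' l h hs.2).2 ⟨_, (mem_cc.1 hc σ).1 hs, by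
      rw [mulC_apply, sub_self]; exact zero_mem _⟩,
      fun hs => by rw [mulC_apply, (mem_cc.1 hc σ).2 hs, zero_mul]⟩

theorem devissage (Φ : Coh x → Coh x → Prop)
    (h0 : ∀ M M', (∀ i, M'.M i ≤ M.M i) → (∀ i, M.M i ≤ M'.M i) → Φ M M')
    (h1 : ∀ M M' l (h : ∀ i, M'.M i ≤ M.M i), Φ (M.ker M' l) M' → Φ M (M.cok M' l h) → Φ M M')
    (M M' : Coh x) (h : ∀ i, M'.M i ≤ M.M i) : Φ M M' := by
  have key : ∀ (T : Finset (Fin m)) (M M' : Coh x), (∀ i, M'.M i ≤ M.M i) →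
      (∀ l ∉ T, ∀ i, ∀ r ∈ M.M i, r * ((x l : K) / x i) ∈ M'.M i) → Φ M M' := by
    intro T
    induction T using Finset.induction_on with
    | empty =>
      refine fun M M' h k => h0 M M' h fun i r hr => ?_
      simpa using k i (Finset.notMem_empty i) i r hr
    | insert l T _ ih =>
      intro M M' h k
      refine h1 M M' l h (ih _ _ (fun i r hr => ⟨h i hr, mul_mem' hr (Basic_mem x i l)⟩)
        fun l' hl' i r hr => ?_) (ih _ _ (fun i => sup_le (h i) ?_) fun l' hl' i r hr => ?_)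
      · by_cases e : l' = l
        · exact e ▸ hr.2
        · exact k l' (by simp [e, hl']) i r hr.1
      · rintro _ ⟨r, hr, rfl⟩
        exact mul_mem' hr (Basic_mem x i l)
      · by_cases e : l' = l
        · exact e ▸ mem_sup_right ⟨r, hr, rfl⟩
        · exact mem_sup_left (k l' (by simp [e, hl']) i r hr)
  exact key Finset.univ M M' h fun l hl => absurd (Finset.mem_univ l) hl

end Pool.Agent.Lib.MP_bc213e_ag.OW.Ce
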